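import Pool.Agent.H77.TQ.Lattice

/-!
# Norms of translates of theta functions
-/

set_option autoImplicit false

namespace Pool.Agent.H77.TQ

open Complex

section

variable {V : Type*} [NormedAddCommGroup V] [NormedSpace ℂ V]

theorem ex1 (x A B : ℂ) : x * cexp A * cexp B = x * cexp (A + B) := by
  rw [exp_add]
  ring

theorem ex2 (x y A B : ℂ) : x * cexp A * (y * cexp B) = x * y * cexp (A + B) := by
  rw [exp_add]
  ring

theorem ex3 (x y A B : ℂ) : x * cexp A * y * cexp B = x * y * cexp (A + B) := by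
  rw [exp_add]
  ring

theorem ex4 (x c y A B D : ℂ) : x * (c * cexp A) * cexp B * (y * cexp D) =
    x * c * y * cexp (A + B + D) := by
  rw [exp_add, exp_add]
  ring

theorem differentiable_prod {ι : Type*} (s : Finset ι) {f : ι → V → ℂ}
    (hf : ∀ i, Differentiable ℂ (f i)) : Differentiable ℂ fun v => ∏ i ∈ s, f i v := by
  classical
  induction s using Finset.induction_on with
  | empty => simp
  | insert i s hi ih =>
    have : (fun v => ∏ k ∈ insert i s, f k v) = fun v => f i v * ∏ k ∈ s, f k v := by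
      funext v
      rw [Finset.prod_insert hi]
    rw [this]
    exact (hf i).mul ih

/-- The set where a nonzero entire function does not vanish is dense. -/
theorem dense_ne_zero {θ : V → ℂ} (hθ : Differentiable ℂ θ) (h0 : ∃ v, θ v ≠ 0) :
    Dense {v | θ v ≠ 0} := by
  obtain ⟨q, hq⟩ := h0
  intro p
  by_contra hp
  rw [mem_closure_iff_nhds] at hp
  push Not at hp
  obtain ⟨t, ht, hte⟩ := hp
  -- restrict to the line from `p` to `q`
  set f : ℂ → ℂ := fun z => θ (p + z • (q - p)) with hf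
  have hfd : Differentiable ℂ f :=
    hθ.comp ((differentiable_const p).add (differentiable_id.smul_const _))
  have hcont : Filter.Tendsto (fun z : ℂ => p + z • (q - p)) (nhds 0) (nhds p) := by
    have : Continuous fun z : ℂ => p + z • (q - p) := by fun_prop
    have h := this.tendsto 0
    simpa using h
  have hev : ∀ᶠ z in nhds (0 : ℂ), f z = 0 := by
    filter_upwards [hcont ht] with z hz
    by_contra hne
    have : (p + z • (q - p)) ∈ t ∩ {v | θ v ≠ 0} := ⟨hz, hne⟩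
    rw [hte] at this
    exact this
  have han : AnalyticOnNhd ℂ f Set.univ := fun z _ => hfd.analyticAt z
  have hz := han.eqOn_zero_of_preconnected_of_eventuallyEq_zero isPreconnected_univ
    (Set.mem_univ 0) hev
  have h1 : f 1 = 0 := hz (Set.mem_univ 1)
  simp only [hf, one_smul, add_sub_cancel] at h1
  exact hq h1

theorem exists_translate {ι : Type*} [Finite ι] {θ : V → ℂ} (hθ : Differentiable ℂ θ)
    (h0 : ∃ v, θ v ≠ 0) (w : ι → V) : ∃ a, ∀ i, θ (w i + a) ≠ 0 := by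
  have hopen : ∀ i, IsOpen {a | θ (w i + a) ≠ 0} := fun i =>
    isOpen_ne_fun (hθ.continuous.comp (continuous_const.add continuous_id)) continuous_const
  have hdense : ∀ i, Dense {a | θ (w i + a) ≠ 0} := by
    intro i
    have h := dense_ne_zero hθ h0
    have h1 : {a | θ (w i + a) ≠ 0} = (Homeomorph.addLeft (w i)) ⁻¹' {v | θ v ≠ 0} := rfl
    rw [h1]
    exact h.preimage (Homeomorph.addLeft (w i)).isOpenMap
  have h2 : ∀ s : Finset ι, Dense (⋂ i ∈ s, {a | θ (w i + a) ≠ 0}) ∧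
      IsOpen (⋂ i ∈ s, {a | θ (w i + a) ≠ 0}) := by
    classical
    intro s
    induction s using Finset.induction_on with
    | empty => simp
    | insert i s _ ih =>
      rw [Finset.set_biInter_insert]
      exact ⟨(hdense i).inter_of_isOpen_left ih.1 (hopen i), (hopen i).inter ih.2⟩
  have := Fintype.ofFinite ι
  obtain ⟨a, ha⟩ := (h2 Finset.univ).1.nonempty
  refine ⟨a, fun i => ?_⟩
  simp only [Finset.mem_univ, Set.iInter_true, Set.mem_iInter] at ha
  exact ha i

end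

section

variable {V : Type*} [NormedAddCommGroup V] [NormedSpace ℂ V] [FiniteDimensional ℂ V]

theorem differentiable_affine (g : V ≃ᵃ[ℂ] V) : Differentiable ℂ fun v => g v := by
  have h : ∀ v, g v = LinearMap.toContinuousLinearMap (g.linear : V →ₗ[ℂ] V) v + g 0 := by
    intro v
    have := g.toAffineMap.decomp'
    have h2 := g.map_vadd (0 : V) v
    simpa [add_comm] using h2
  have h1 : (fun v => g v) = fun v =>
      LinearMap.toContinuousLinearMap (g.linear : V →ₗ[ℂ] V) v + g 0 := funext h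
  rw [h1]
  exact (ContinuousLinearMap.differentiable _).add_const _

theorem affine_apply (g : V ≃ᵃ[ℂ] V) (v : V) : g v = g.linear v + g 0 := by
  have h2 := g.map_vadd (0 : V) v
  simpa [add_comm] using h2

/-- **Norms of translated theta functions.** -/
theorem main (Γ : Subgroup (V ≃ᵃ[ℂ] V)) (Λ : AddSubgroup V)
    (hΛ : ∀ l : V, l ∈ Λ ↔ AffineEquiv.constVAdd ℂ V l ∈ Γ)
    (hspan : Submodule.span ℝ (Λ : Set V) = ⊤)
    (hfin : Finite (Γ.map (AffineEquiv.linearHom : (V ≃ᵃ[ℂ] V) →* (V ≃ₗ[ℂ] V))))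
    (hq : ∀ v : V, (∀ γ ∈ Γ, γ.linear v = v) → v = 0)
    (H : V →ₗ[ℂ] V →ₛₗ[starRingEnd ℂ] ℂ)
    (hherm : ∀ v w, H w v = starRingEnd ℂ (H v w)) (hpos : ∀ v, 0 ≤ (H v v).re)
    (α : V → ℂ) (hα : ∀ l ∈ Λ, ‖α l‖ = 1)
    (j : (V ≃ᵃ[ℂ] V) → V → ℂ) (hj1 : ∀ γ ∈ Γ, Differentiable ℂ (j γ))
    (hj2 : ∀ γ ∈ Γ, ∀ v, j γ v ≠ 0)
    (hj3 : ∀ γ ∈ Γ, ∀ δ ∈ Γ, ∀ v, j (γ * δ) v = j γ (δ v) * j δ v)
    (hj4 : ∀ l ∈ Λ, ∀ v, j (AffineEquiv.constVAdd ℂ V l) v =
      α l * cexp (Real.pi * H v l + Real.pi / 2 * H l l)) (v₀ : V) :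
    ∃ s : V → ℂ, Differentiable ℂ s ∧ (∀ γ ∈ Γ, ∀ v, s (γ v) =
      j γ v ^ Nat.card (Γ.map (AffineEquiv.linearHom : (V ≃ᵃ[ℂ] V) →* (V ≃ₗ[ℂ] V))) * s v) ∧
      s v₀ ≠ 0 := by
  classical
  have hα0 : ∀ l ∈ Λ, α l ≠ 0 := fun l hl h => by simpa [h] using hα l hl
  -- the semicharacter property
  have hmul : ∀ l ∈ Λ, ∀ m ∈ Λ, α (l + m) = α l * α m * cexp (-(Real.pi * I * (H l m).im)) := by
    intro l hl m hm
    have h1 := hj3 _ ((hΛ l).1 hl) _ ((hΛ m).1 hm) 0
    have h2 : AffineEquiv.constVAdd ℂ V l * AffineEquiv.constVAdd ℂ V m =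
        AffineEquiv.constVAdd ℂ V (l + m) := by
      rw [AffineEquiv.constVAdd_add]
      rfl
    rw [h2, hj4 _ (Λ.add_mem hl hm), hj4 _ hl, hj4 _ hm] at h1
    have h3 : (AffineEquiv.constVAdd ℂ V m) (0 : V) = m := by simp
    rw [h3] at h1
    have h4 : H l m - H m l = 2 * I * (H l m).im := by
      rw [hherm l m, Complex.sub_conj]
      push_cast
      ring
    have h5 : cexp (Real.pi * H 0 (l + m) + Real.pi / 2 * H (l + m) (l + m)) ≠ 0 := exp_ne_zero _
    apply mul_right_cancel₀ h5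
    rw [h1]
    rw [ex1, ex2]
    congr 2
    simp only [map_add, LinearMap.add_apply, map_zero, LinearMap.zero_apply]
    linear_combination (-(Real.pi : ℂ) / 2) * h4
  obtain ⟨χ, θ, hχ0, hχ, hθ, hθ0, hθΛ⟩ := exists_theta H hherm hpos Λ hspan α hα hmul
  -- representatives of the point group
  set P := Γ.map (AffineEquiv.linearHom : (V ≃ᵃ[ℂ] V) →* (V ≃ₗ[ℂ] V)) with hP
  have hrep : ∀ c : P, ∃ g : V ≃ᵃ[ℂ] V, g ∈ Γ ∧ g.linear = (c : V ≃ₗ[ℂ] V) := by
    rintro ⟨c, g, hg, hgc⟩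
    exact ⟨g, hg, hgc⟩
  choose g hg hgc using hrep
  have hmemP : ∀ γ ∈ Γ, (γ.linear : V ≃ₗ[ℂ] V) ∈ P := fun γ hγ => ⟨γ, hγ, rfl⟩
  obtain ⟨a, ha⟩ := exists_translate hθ hθ0 (fun c : P => g c v₀)
  set χ' : V → ℂ := fun l => χ l * cexp (Real.pi * (H a l - H l a)) with hχ'
  have hχ'0 : ∀ l ∈ Λ, χ' l ≠ 0 := fun l hl => mul_ne_zero (hχ0 l hl) (exp_ne_zero _)
  have hχ'mul : ∀ l ∈ Λ, ∀ m ∈ Λ, χ' (l + m) = χ' l * χ' m := by
    intro l hl m hm
    simp only [hχ', hχ l hl m hm, map_add, LinearMap.add_apply]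
    rw [mul_mul_mul_comm, ← exp_add]
    congr 2
    ring
  have hχ'one : χ' 0 = 1 := by
    have h := hχ'mul 0 Λ.zero_mem 0 Λ.zero_mem
    rw [add_zero] at h
    exact (mul_eq_left₀ (hχ'0 0 Λ.zero_mem)).1 h.symm
  have hχ'prod : ∀ (s : Finset P) (l : P → V), (∀ c, l c ∈ Λ) →
      ∏ c ∈ s, χ' (l c) = χ' (∑ c ∈ s, l c) := by
    intro s l hl
    induction s using Finset.induction_on with
    | empty => simp [hχ'one]
    | insert c s hc ih =>
      rw [Finset.prod_insert hc, Finset.sum_insert hc, ih,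
        hχ'mul _ (hl c) _ (Λ.sum_mem fun c _ => hl c)]
  set θa : V → ℂ := fun v => θ (v + a) * cexp (-(Real.pi * H v a)) with hθa
  have hθaΛ : ∀ l ∈ Λ, ∀ v, θa (v + l) =
      α l * χ' l * cexp (Real.pi * H v l + Real.pi / 2 * H l l) * θa v := by
    intro l hl v
    simp only [hθa, hχ']
    have e1 : v + l + a = (v + a) + l := by abel
    rw [e1, hθΛ l hl]
    rw [ex3, ex4]
    congr 2
    simp only [map_add, LinearMap.add_apply]
    ring
  set F : (V ≃ᵃ[ℂ] V) → V → ℂ := fun γ v => (j γ v)⁻¹ * θa (γ v) with hF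
  have hFΛ : ∀ l ∈ Λ, ∀ γ ∈ Γ, ∀ v, F (AffineEquiv.constVAdd ℂ V l * γ) v = χ' l * F γ v := by
    intro l hl γ hγ v
    simp only [hF]
    rw [hj3 _ ((hΛ l).1 hl) γ hγ, hj4 l hl]
    have e1 : (AffineEquiv.constVAdd ℂ V l * γ) v = γ v + l := by
      show AffineEquiv.constVAdd ℂ V l (γ v) = _
      simp [add_comm]
    rw [e1, hθaΛ l hl]
    have h1 := hα0 l hl
    have h2 := hj2 γ hγ v
    have h3 := exp_ne_zero (Real.pi * H (γ v) l + Real.pi / 2 * H l l)
    field_simp
  have hFmul : ∀ γ ∈ Γ, ∀ δ ∈ Γ, ∀ v, F γ (δ v) = j δ v * F (γ * δ) v := by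
    intro γ hγ δ hδ v
    simp only [hF]
    rw [hj3 γ hγ δ hδ]
    have h1 := hj2 γ hγ (δ v)
    have h2 := hj2 δ hδ v
    have e1 : (γ * δ) v = γ (δ v) := rfl
    rw [e1]
    field_simp
  have : Fintype P := Fintype.ofFinite P
  refine ⟨fun v => ∏ c : P, F (g c) v, ?_, ?_, ?_⟩
  · -- holomorphy
    have hθad : Differentiable ℂ θa := by
      have h1 : Differentiable ℂ fun v : V => H v a := by
        have h2 : (fun v : V => H v a) = fun v => LinearMap.toContinuousLinearMap (H.flip a) v := by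
          funext v
          simp
        rw [h2]
        exact ContinuousLinearMap.differentiable _
      exact (hθ.comp (differentiable_id.add_const a)).mul ((h1.const_mul _).neg.cexp)
    have hFd : ∀ c : P, Differentiable ℂ (F (g c)) := fun c =>
      ((hj1 _ (hg c)).inv fun v => hj2 _ (hg c) v).mul (hθad.comp (differentiable_affine (g c)))
    exact differentiable_prod Finset.univ hFd
  · -- automorphy
    intro γ hγ v
    set γ' : P := ⟨γ.linear, hmemP γ hγ⟩ with hγ'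
    set l : P → V := fun c => g c (γ 0) - g (c * γ') 0 with hl
    have hcomp : ∀ c : P, g c * γ = AffineEquiv.constVAdd ℂ V (l c) * g (c * γ') := by
      intro c
      refine AffineEquiv.ext fun v => ?_
      show g c (γ v) = AffineEquiv.constVAdd ℂ V (l c) (g (c * γ') v)
      rw [AffineEquiv.constVAdd_apply, vadd_eq_add, affine_apply (g (c * γ')) v, hgc]
      rw [affine_apply (g c), affine_apply γ v, map_add, hgc]
      simp only [hl]
      rw [affine_apply (g c) (γ 0), hgc]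
      have e1 : ((c * γ' : P) : V ≃ₗ[ℂ] V) v = (c : V ≃ₗ[ℂ] V) (γ.linear v) := rfl
      rw [e1]
      abel
    have hlΛ : ∀ c, l c ∈ Λ := by
      intro c
      rw [hΛ]
      have h1 : AffineEquiv.constVAdd ℂ V (l c) = g c * γ * (g (c * γ'))⁻¹ := by
        rw [hcomp c]
        group
      rw [h1]
      exact Γ.mul_mem (Γ.mul_mem (hg c) hγ) (Γ.inv_mem (hg _))
    have hsum0 : ∑ c : P, l c = 0 := by
      have h1 : ∑ c : P, g (c * γ') (0 : V) = ∑ c : P, g c (0 : V) :=
        Fintype.sum_equiv (Equiv.mulRight γ') _ _ fun c => rfl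
      have h2 : ∑ c : P, l c = ∑ c : P, (c : V ≃ₗ[ℂ] V) (γ 0) := by
        simp only [hl]
        rw [Finset.sum_sub_distrib, h1, ← Finset.sum_sub_distrib]
        refine Finset.sum_congr rfl fun c _ => ?_
        rw [affine_apply (g c) (γ 0), hgc]
        abel
      rw [h2]
      refine hq _ fun δ hδ => ?_
      rw [map_sum]
      exact Fintype.sum_equiv (Equiv.mulLeft (⟨δ.linear, hmemP δ hδ⟩ : P)) _ _ fun c => rfl
    calc ∏ c : P, F (g c) (γ v) = ∏ c : P, (j γ v * (χ' (l c) * F (g (c * γ')) v)) := by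
          refine Finset.prod_congr rfl fun c _ => ?_
          rw [hFmul _ (hg c) γ hγ, hcomp c, hFΛ _ (hlΛ c) _ (hg _)]
      _ = j γ v ^ Nat.card P * ((∏ c : P, χ' (l c)) * ∏ c : P, F (g (c * γ')) v) := by
          rw [Finset.prod_mul_distrib, Finset.prod_mul_distrib, Finset.prod_const,
            Finset.card_univ, Nat.card_eq_fintype_card]
      _ = j γ v ^ Nat.card P * ∏ c : P, F (g c) v := by
          rw [hχ'prod _ l hlΛ, hsum0, hχ'one, one_mul]
          congr 1
          exact Fintype.prod_equiv (Equiv.mulRight γ') _ _ fun c => rfl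
  · -- nonvanishing
    refine Finset.prod_ne_zero_iff.2 fun c _ => ?_
    exact mul_ne_zero (inv_ne_zero (hj2 _ (hg c) v₀)) (mul_ne_zero (ha c) (exp_ne_zero _))

end

end Pool.Agent.H77.TQ
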