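import Mathlib

/-!
# Gaussian sums over integer lattices and semidefinite Hermitian forms
-/

set_option autoImplicit false

namespace Pool.Agent.H77.TQ

open Complex

/-- products of summable functions are summable -/
theorem summable_pi_prod {ι : Type*} [Fintype ι] {f : ℤ → ℝ} (hf : Summable f)
    (h0 : ∀ k, 0 ≤ f k) : Summable fun q : ι → ℤ => ∏ i, f (q i) := by
  classical
  refine summable_of_sum_le (c := (∑' k, f k) ^ Fintype.card ι)
    (fun q => Finset.prod_nonneg fun i _ => h0 _) fun s => ?_
  have hsub : s ⊆ Fintype.piFinset fun i => s.image fun q => q i := by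
    intro q hq
    rw [Fintype.mem_piFinset]
    exact fun i => Finset.mem_image_of_mem _ hq
  calc ∑ q ∈ s, ∏ i, f (q i) ≤ ∑ q ∈ Fintype.piFinset (fun i => s.image fun q => q i), ∏ i, f (q i) :=
        Finset.sum_le_sum_of_subset_of_nonneg hsub fun q _ _ => Finset.prod_nonneg fun i _ => h0 _
    _ = ∏ i, ∑ k ∈ s.image (fun q => q i), f k := by
        rw [Finset.prod_univ_sum]
    _ ≤ ∏ _i : ι, ∑' k, f k := by
        refine Finset.prod_le_prod (fun i _ => Finset.sum_nonneg fun k _ => h0 k) fun i _ => ?_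
        exact hf.sum_le_tsum _ fun k _ => h0 k
    _ = (∑' k, f k) ^ Fintype.card ι := by simp

theorem summable_gauss_int {c : ℝ} (hc : 0 < c) : Summable fun k : ℤ => Real.exp (-(c * (k : ℝ) ^ 2)) := by
  have h1 : Summable fun n : ℕ => Real.exp (-(c * (n : ℝ))) := by
    have : (fun n : ℕ => Real.exp (-(c * (n : ℝ)))) = fun n : ℕ => Real.exp (-c) ^ n := by
      funext n
      rw [← Real.exp_nat_mul]
      congr 1
      ring
    rw [this]
    exact summable_geometric_of_lt_one (Real.exp_pos _).le (by
      rw [Real.exp_lt_one_iff]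
      linarith)
  have h2 : Summable fun n : ℕ => Real.exp (-(c * (n : ℝ) ^ 2)) := by
    refine Summable.of_nonneg_of_le (fun n => (Real.exp_pos _).le) (fun n => ?_) h1
    rw [Real.exp_le_exp, neg_le_neg_iff]
    refine mul_le_mul_of_nonneg_left ?_ hc.le
    have : (n : ℝ) ≤ (n : ℝ) ^ 2 := by
      exact_mod_cast Nat.le_self_pow two_ne_zero n
    exact this
  refine Summable.of_nat_of_neg (f := fun k : ℤ => Real.exp (-(c * (k : ℝ) ^ 2))) ?_ ?_
  · simpa using h2
  · simpa using h2

theorem summable_gauss {ι : Type*} [Fintype ι] {c : ℝ} (hc : 0 < c) :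
    Summable fun q : ι → ℤ => Real.exp (-(c * ∑ i, (q i : ℝ) ^ 2)) := by
  have h := summable_pi_prod (ι := ι) (summable_gauss_int hc) fun k => (Real.exp_pos _).le
  refine h.congr fun q => ?_
  rw [← Real.exp_sum]
  congr 1
  rw [Finset.sum_neg_distrib, Finset.mul_sum]

section form

variable {V : Type*} [AddCommGroup V] [Module ℂ V]

/-- Cauchy-Schwarz for positive semidefinite Hermitian forms. -/
theorem cauchy_schwarz (H : V →ₗ[ℂ] V →ₛₗ[starRingEnd ℂ] ℂ)
    (hherm : ∀ v w, H w v = starRingEnd ℂ (H v w)) (hpos : ∀ v, 0 ≤ (H v v).re) (v w : V) :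
    ‖H v w‖ ^ 2 ≤ (H v v).re * (H w w).re := by
  let C : PreInnerProductSpace.Core ℂ V :=
    { inner := fun x y => H y x
      conj_inner_symm := fun x y => (hherm _ _).symm
      re_inner_nonneg := fun x => hpos x
      add_left := fun x y z => by
        show H z (x + y) = H z x + H z y
        rw [map_add]
      smul_left := fun x y r => by
        show H y (r • x) = starRingEnd ℂ r * H y x
        rw [map_smulₛₗ, smul_eq_mul] }
  have h := InnerProductSpace.Core.inner_mul_inner_self_le (c := C) w v
  have h1 : ‖H v w‖ * ‖H w v‖ ≤ (H w w).re * (H v v).re := h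
  have h2 : ‖H w v‖ = ‖H v w‖ := by
    rw [hherm v w, RCLike.norm_conj]
  rw [h2] at h1
  rw [sq, mul_comm (H v v).re]
  exact h1

end form

end Pool.Agent.H77.TQ
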