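import Pool.Agent.H77.TQ.Nonzero

/-!
# Theta functions for a semidefinite form and a spanning subgroup
-/

set_option autoImplicit false

namespace Pool.Agent.H77.TQ

open Complex

section

variable {V : Type*} [NormedAddCommGroup V] [NormedSpace ℂ V]

/-- A vector whose pairing with a real spanning set has zero imaginary part is in the radical. -/
theorem form_eq_zero (H : V →ₗ[ℂ] V →ₛₗ[starRingEnd ℂ] ℂ) {S : Set V}
    (hS : Submodule.span ℝ S = ⊤) {p : V} (hp : ∀ s ∈ S, (H p s).im = 0) (x : V) : H p x = 0 := by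
  have h1 : ∀ x, (H p x).im = 0 := by
    intro x
    have hx : x ∈ Submodule.span ℝ S := hS ▸ Submodule.mem_top
    induction hx using Submodule.span_induction with
    | mem x hx => exact hp x hx
    | zero => simp
    | add x y _ _ hx hy => rw [map_add, add_im, hx, hy, add_zero]
    | smul r x _ hx =>
      have : (r • x : V) = ((r : ℝ) : ℂ) • x := (Complex.coe_smul r x).symm
      rw [this, map_smulₛₗ, conj_ofReal, smul_eq_mul, im_ofReal_mul, hx, mul_zero]
  refine Complex.ext ?_ (h1 x)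
  have h2 := h1 (I • x)
  rw [map_smulₛₗ, conj_I, smul_eq_mul, neg_mul, neg_im, I_mul_im] at h2
  simpa using h2

end

section

variable {V : Type*} [NormedAddCommGroup V] [NormedSpace ℂ V] [FiniteDimensional ℂ V]

theorem exists_theta (H : V →ₗ[ℂ] V →ₛₗ[starRingEnd ℂ] ℂ)
    (hherm : ∀ v w, H w v = starRingEnd ℂ (H v w)) (hpos : ∀ v, 0 ≤ (H v v).re)
    (Λ : AddSubgroup V) (hspan : Submodule.span ℝ (Λ : Set V) = ⊤) (α : V → ℂ)
    (hα : ∀ l ∈ Λ, ‖α l‖ = 1)
    (hmul : ∀ l ∈ Λ, ∀ m ∈ Λ, α (l + m) = α l * α m * cexp (-(Real.pi * I * (H l m).im))) :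
    ∃ (χ : V → ℂ) (θ : V → ℂ), (∀ l ∈ Λ, χ l ≠ 0) ∧
      (∀ l ∈ Λ, ∀ m ∈ Λ, χ (l + m) = χ l * χ m) ∧ Differentiable ℂ θ ∧ (∃ v, θ v ≠ 0) ∧
      ∀ l ∈ Λ, ∀ v, θ (v + l) =
        α l * χ l * cexp (Real.pi * H v l + Real.pi / 2 * H l l) * θ v := by
  classical
  have hα0 : ∀ l ∈ Λ, α l ≠ 0 := fun l hl h => by simpa [h] using hα l hl
  have hanti : ∀ v w, (H w v).im = -(H v w).im := fun v w => by rw [hherm v w, conj_im]
  -- integrality
  have hint : ∀ l ∈ Λ, ∀ m ∈ Λ, ∃ k : ℤ, (H l m).im = k := by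
    intro l hl m hm
    have h1 := hmul l hl m hm
    have h2 := hmul m hm l hl
    rw [add_comm m l, h1, mul_comm (α m)] at h2
    have h3 := mul_left_cancel₀ (mul_ne_zero (hα0 l hl) (hα0 m hm)) h2
    rw [hanti l m] at h3
    obtain ⟨k, hk⟩ := Complex.exp_eq_exp_iff_exists_int.1 h3
    refine ⟨-k, ?_⟩
    have h4 : ((H l m).im : ℂ) = ((-k : ℤ) : ℂ) := by
      have hpi : (2 * Real.pi * I : ℂ) ≠ 0 := by
        simp [Real.pi_ne_zero]
      apply mul_left_cancel₀ hpi
      push_cast at hk ⊢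
      linear_combination -hk
    exact_mod_cast h4
  -- a finite spanning subset
  obtain ⟨S, hSΛ, hS⟩ : ∃ S : Finset V, (S : Set V) ⊆ Λ ∧ Submodule.span ℝ (S : Set V) = ⊤ := by
    have hfd : Module.Finite ℝ V := Module.Finite.trans ℂ V
    have hfg : (Submodule.span ℝ (Λ : Set V)).FG := by
      rw [hspan]
      exact Module.finite_def.1 hfd
    obtain ⟨S, h1, h2⟩ := Submodule.fg_span_iff_fg_span_finset_subset _ |>.1 hfg
    exact ⟨S, h1, by rw [← h2, hspan]⟩
  -- the integral coordinates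
  choose! k hk using hint
  let m : Λ →+ (S → ℤ) := AddMonoidHom.mk' (fun l s => k l s) (by
    intro l l'
    funext s
    have h : ((k ((l + l' : Λ) : V) s : ℤ) : ℝ) = ((k l s + k l' s : ℤ) : ℝ) := by
      rw [← hk _ (l + l').2 s (hSΛ s.2), Int.cast_add, ← hk _ l.2 s (hSΛ s.2),
        ← hk _ l'.2 s (hSΛ s.2)]
      simp
    exact_mod_cast h)
  have hm : ∀ (l : Λ) (s : S), ((m l s : ℤ) : ℝ) = (H l s).im := fun l s =>
    (hk _ l.2 s (hSΛ s.2)).symm
  let mL : Λ →ₗ[ℤ] (S → ℤ) := m.toIntLinearMap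
  let R := LinearMap.range mL
  obtain ⟨σ, hσ⟩ : ∃ σ : R →ₗ[ℤ] Λ, mL.rangeRestrict ∘ₗ σ = LinearMap.id :=
    Module.projective_lifting_property _ _ mL.surjective_rangeRestrict
  have hσ' : ∀ q : R, m (σ q) = (q : S → ℤ) := by
    intro q
    have := congrArg Subtype.val (LinearMap.congr_fun hσ q)
    exact this
  let lam : R →+ V := Λ.subtype.comp σ.toAddMonoidHom
  have hlam : ∀ q, lam q ∈ Λ := fun q => (σ q).2
  have hlam' : ∀ q : R, ((σ q : Λ) : V) = lam q := fun q => rfl
  let ε : R → ℂ := fun q => α (lam q)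
  have hε : ∀ q, ‖ε q‖ = 1 := fun q => hα _ (hlam q)
  have hεmul : ∀ q p, ε (q + p) = ε q * ε p * cexp (-(Real.pi * I * (H (lam q) (lam p)).im)) := by
    intro q p
    show α (lam (q + p)) = _
    rw [map_add]
    exact hmul _ (hlam q) _ (hlam p)
  -- convergence
  obtain ⟨M, hM, hMb⟩ : ∃ M : ℝ, 0 < M ∧ ∀ s : S, nrm H s ≤ M := by
    refine ⟨1 + ∑ s : S, nrm H s, add_pos_of_pos_of_nonneg one_pos
      (Finset.sum_nonneg fun s _ => nrm_nonneg _ _), fun s => ?_⟩
    have := Finset.single_le_sum (f := fun s : S => nrm H s) (fun s _ => nrm_nonneg _ _)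
      (Finset.mem_univ s)
    linarith
  have hcoord : ∀ (q : R) (s : S), (((q : S → ℤ) s : ℤ) : ℝ) ^ 2 ≤ M ^ 2 * (H (lam q) (lam q)).re := by
    intro q s
    rw [← hσ' q, hm, hlam', ← nrm_sq hpos, ← mul_pow]
    refine sq_le_sq' ?_ ?_
    · have h1 : -(H (lam q) s).im ≤ ‖H (lam q) s‖ := (neg_le_abs _).trans (abs_im_le_norm _)
      have h2 := norm_form_le hherm hpos (lam q) s
      have h3 := mul_le_mul_of_nonneg_left (hMb s) (nrm_nonneg H (lam q))
      linarith
    · have h1 : (H (lam q) s).im ≤ ‖H (lam q) s‖ := (le_abs_self _).trans (abs_im_le_norm _)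
      have h2 := norm_form_le hherm hpos (lam q) s
      have h3 := mul_le_mul_of_nonneg_left (hMb s) (nrm_nonneg H (lam q))
      linarith
  have hsum : Summable fun q : R => Real.exp (-(H (lam q) (lam q)).re) := by
    set c : ℝ := (M ^ 2 * (Fintype.card S + 1))⁻¹ with hc
    have hc0 : 0 < c := by positivity
    have h1 : Summable fun q : R => Real.exp (-(c * ∑ s, (((q : S → ℤ) s : ℤ) : ℝ) ^ 2)) :=
      (summable_gauss (ι := S) hc0).comp_injective Subtype.val_injective
    refine Summable.of_nonneg_of_le (fun q => (Real.exp_pos _).le) (fun q => ?_) h1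
    rw [Real.exp_le_exp, neg_le_neg_iff, hc, inv_mul_le_iff₀ (by positivity)]
    calc ∑ s, (((q : S → ℤ) s : ℤ) : ℝ) ^ 2 ≤ ∑ _s : S, M ^ 2 * (H (lam q) (lam q)).re :=
          Finset.sum_le_sum fun s _ => hcoord q s
      _ = Fintype.card S * (M ^ 2 * (H (lam q) (lam q)).re) := by simp
      _ ≤ M ^ 2 * (Fintype.card S + 1) * (H (lam q) (lam q)).re := by
          have := mul_nonneg (sq_nonneg M) (hpos (lam q))
          nlinarith
  have hne : ∀ q : R, q ≠ 0 → ∃ v, (H v (lam q)).im ≠ 0 := by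
    intro q hq
    obtain ⟨s, hs⟩ : ∃ s, (q : S → ℤ) s ≠ 0 := by
      by_contra hcon
      push Not at hcon
      exact hq (Subtype.ext (funext hcon))
    refine ⟨s, fun h => hs ?_⟩
    have h1 : (((q : S → ℤ) s : ℤ) : ℝ) = 0 := by
      rw [← hσ' q, hm, hlam', hanti s, h, neg_zero]
    exact_mod_cast h1
  obtain ⟨b, v₁, hv₁⟩ := theta_ne_zero (ε := ε) hherm hpos hε hsum hne
  -- the kernel part
  let q₀ : Λ → R := fun l => mL.rangeRestrict l
  let p : Λ → V := fun l => (l : V) - lam (q₀ l)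
  have hpΛ : ∀ l, p l ∈ Λ := fun l => Λ.sub_mem l.2 (hlam _)
  have hq₀ : ∀ l : Λ, ((q₀ l : R) : S → ℤ) = m l := fun l => rfl
  have hp0 : ∀ (l : Λ) (x : V), H (p l) x = 0 := by
    intro l x
    refine form_eq_zero H hS (fun s hs => ?_) x
    show (H ((l : V) - lam (q₀ l)) s).im = 0
    rw [map_sub, LinearMap.sub_apply, sub_im]
    have h1 := hm l ⟨s, hs⟩
    have h2 := hm (σ (q₀ l)) ⟨s, hs⟩
    rw [hσ', hq₀] at h2
    rw [hlam'] at h2
    simp only at h1 h2
    rw [← h1, ← h2, sub_self]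
  have hp0' : ∀ (l : Λ) (x : V), H x (p l) = 0 := by
    intro l x
    rw [hherm (p l) x, hp0, map_zero]
  have hpadd : ∀ l l' : Λ, p (l + l') = p l + p l' := by
    intro l l'
    show ((l + l' : Λ) : V) - lam (q₀ (l + l')) = _
    have : q₀ (l + l') = q₀ l + q₀ l' := map_add _ _ _
    rw [this, map_add, AddSubgroup.coe_add]
    show _ = ((l : V) - lam (q₀ l)) + ((l' : V) - lam (q₀ l'))
    abel
  refine ⟨fun l => if h : l ∈ Λ then (α (p ⟨l, h⟩))⁻¹ else 1, theta H lam ε b, ?_, ?_,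
    differentiable_theta hherm hpos hε hsum b, ⟨v₁, hv₁⟩, ?_⟩
  · intro l hl
    simp only [dif_pos hl]
    exact inv_ne_zero (hα0 _ (hpΛ _))
  · intro l hl l' hl'
    simp only [dif_pos hl, dif_pos hl', dif_pos (Λ.add_mem hl hl')]
    have h1 : p ⟨l + l', Λ.add_mem hl hl'⟩ = p ⟨l, hl⟩ + p ⟨l', hl'⟩ := hpadd ⟨l, hl⟩ ⟨l', hl'⟩
    rw [h1, hmul _ (hpΛ _) _ (hpΛ _), hp0, Complex.zero_im, Complex.ofReal_zero, mul_zero,
      neg_zero, exp_zero, mul_one, mul_inv]
  · intro l hl v
    simp only [dif_pos hl]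
    set l' : Λ := ⟨l, hl⟩ with hl'
    have h1 : l = p l' + lam (q₀ l') := by
      show l = (l - lam (q₀ l')) + lam (q₀ l')
      abel
    have h2 : ∀ w, theta H lam ε b (w + p l') = theta H lam ε b w := by
      intro w
      refine tsum_congr fun q => ?_
      rw [term, term]
      have e1 : H (w + p l') (lam q) = H w (lam q) := by
        rw [map_add, LinearMap.add_apply, hp0, add_zero]
      have e2 : H (w + p l' + lam q) b = H (w + lam q) b := by
        rw [map_add, map_add, LinearMap.add_apply, LinearMap.add_apply, hp0, add_zero, map_add,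
          LinearMap.add_apply]
      rw [e1, e2]
    have h3 : v + l = (v + lam (q₀ l')) + p l' := by
      have h : v + l = v + (p l' + lam (q₀ l')) := congrArg (fun y => v + y) h1
      refine h.trans ?_
      abel
    have h4 : α l * (α (p l'))⁻¹ = ε (q₀ l') := by
      have h5 : α l = α (p l') * α (lam (q₀ l')) := by
        have := hmul (p l') (hpΛ l') (lam (q₀ l')) (hlam _)
        rw [hp0, ← h1, Complex.zero_im, Complex.ofReal_zero, mul_zero,
          neg_zero, exp_zero, mul_one] at this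
        exact this
      rw [h5, mul_comm (α (p l')), mul_assoc, mul_inv_cancel₀ (hα0 _ (hpΛ l')), mul_one]
    have h5 : H v l = H v (lam (q₀ l')) := by
      have := congrArg (fun y => H v y) h1
      simp only [map_add, hp0', zero_add] at this
      exact this
    have h6 : H l l = H (lam (q₀ l')) (lam (q₀ l')) := by
      have e1 : ∀ x, H l x = H (lam (q₀ l')) x := by
        intro x
        have := congrArg (fun y => H y x) h1
        simp only [map_add, LinearMap.add_apply, hp0, zero_add] at this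
        exact this
      have e2 : H (lam (q₀ l')) l = H (lam (q₀ l')) (lam (q₀ l')) := by
        have := congrArg (fun y => H (lam (q₀ l')) y) h1
        simp only [map_add, hp0', zero_add] at this
        exact this
      rw [e1, e2]
    rw [h3, h2, theta_add hherm hε hεmul, h4, h5, h6]

end

end Pool.Agent.H77.TQ
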