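import Pool.Agent.H77.TQ.Theta

/-!
# The theta series does not vanish identically
-/

set_option autoImplicit false

namespace Pool.Agent.H77.TQ

open Complex

section

variable {V : Type*} [NormedAddCommGroup V] [NormedSpace ℂ V]

variable {R : Type*} [AddCommGroup R] {H : V →ₗ[ℂ] V →ₛₗ[starRingEnd ℂ] ℂ} {lam : R →+ V}
  {ε : R → ℂ}

/-- the character of index `q` -/
noncomputable def chr (H : V →ₗ[ℂ] V →ₛₗ[starRingEnd ℂ] ℂ) (lam : R →+ V) (q : R) (v : V) : ℂ :=
  cexp (-(2 * Real.pi * I * (H v (lam q)).im))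

theorem norm_chr (q : R) (v : V) : ‖chr H lam q v‖ = 1 := by
  have h : -(2 * Real.pi * I * (H v (lam q)).im) = ((-(2 * Real.pi * (H v (lam q)).im) : ℝ) : ℂ) * I := by
    push_cast
    ring
  rw [chr, h, norm_exp_ofReal_mul_I]

theorem chr_add (q : R) (v w : V) : chr H lam q (v + w) = chr H lam q v * chr H lam q w := by
  rw [chr, chr, chr, ← exp_add, map_add, LinearMap.add_apply, add_im]
  congr 1
  push_cast
  ring

theorem chr_zero_left (v : V) : chr H lam 0 v = 1 := by
  simp [chr]

/-- An absolutely convergent sum of distinct characters with constant term of norm one is not zero. -/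
theorem fourier_ne_zero (c : R → ℂ) (hc : Summable fun q => ‖c q‖) (hc0 : ‖c 0‖ = 1)
    (hne : ∀ q : R, q ≠ 0 → ∃ v, (H v (lam q)).im ≠ 0)
    (hz : ∀ v, ∑' q, c q * chr H lam q v = 0) : False := by
  classical
  have hstep : ∀ S : Finset R, (0 : R) ∉ S → ∃ w : R → ℂ, (∀ q, ‖w q‖ ≤ 1) ∧ w 0 = 1 ∧
      (∀ q ∈ S, w q = 0) ∧ ∀ v, ∑' q, c q * w q * chr H lam q v = 0 := by
    intro S
    induction S using Finset.induction_on with
    | empty =>
      intro _
      exact ⟨fun _ => 1, fun _ => by simp, rfl, fun q hq => by simp at hq, fun v => by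
        simpa using hz v⟩
    | insert p S hp ih =>
      intro h0
      rw [Finset.mem_insert, not_or] at h0
      obtain ⟨w, hw1, hw2, hw3, hw4⟩ := ih h0.2
      obtain ⟨v₀, hv₀⟩ := hne p (Ne.symm h0.1)
      set u : V := ((1 / (2 * (H v₀ (lam p)).im) : ℝ) : ℂ) • v₀ with hu
      have hu' : (H u (lam p)).im = 1 / 2 := by
        rw [hu, map_smul, LinearMap.smul_apply, smul_eq_mul, im_ofReal_mul]
        field_simp
      have hchr : chr H lam p u = -1 := by
        rw [chr, hu']
        have : -(2 * Real.pi * I * ((1 / 2 : ℝ) : ℂ)) = -(Real.pi * I) := by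
          push_cast
          ring
        rw [this, exp_neg, exp_pi_mul_I]
        norm_num
      have hsumm : ∀ v, Summable fun q => c q * w q * chr H lam q v := by
        intro v
        refine Summable.of_norm_bounded hc fun q => ?_
        rw [norm_mul, norm_mul, norm_chr, mul_one]
        exact mul_le_of_le_one_right (norm_nonneg _) (hw1 q)
      refine ⟨fun q => w q * ((1 + chr H lam q u) / 2), fun q => ?_, ?_, fun q hq => ?_, fun v => ?_⟩
      · rw [norm_mul]
        refine mul_le_one₀ (hw1 q) (norm_nonneg _) ?_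
        rw [norm_div]
        have : ‖1 + chr H lam q u‖ ≤ 2 := by
          refine (norm_add_le _ _).trans ?_
          rw [norm_chr, norm_one]
          norm_num
        have h2 : ‖(2 : ℂ)‖ = 2 := by simp
        rw [h2, div_le_one (by norm_num)]
        exact this
      · show w 0 * ((1 + chr H lam 0 u) / 2) = 1
        rw [hw2, chr_zero_left]
        norm_num
      · rcases Finset.mem_insert.1 hq with rfl | hq
        · simp [hchr]
        · simp [hw3 q hq]
      · have h1 : ∀ q, c q * (w q * ((1 + chr H lam q u) / 2)) * chr H lam q v =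
            (1 / 2) * (c q * w q * chr H lam q v) + (1 / 2) * (c q * w q * chr H lam q (v + u)) := by
          intro q
          rw [chr_add]
          ring
        rw [tsum_congr h1, Summable.tsum_add ((hsumm v).mul_left _) ((hsumm (v + u)).mul_left _),
          tsum_mul_left, tsum_mul_left, hw4, hw4]
        simp
  obtain ⟨T, hT⟩ : ∃ T : Finset R, ∑' q : {q // q ∉ T}, ‖c q‖ < 1 := by
    have h := (tendsto_tsum_compl_atTop_zero fun q => ‖c q‖).eventually (gt_mem_nhds one_pos)
    obtain ⟨T, hT⟩ := h.exists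
    exact ⟨T, hT⟩
  obtain ⟨w, hw1, hw2, hw3, hw4⟩ := hstep (T.erase 0) (Finset.notMem_erase 0 T)
  have h0 := hw4 0
  have hsumm : Summable fun q => c q * w q * chr H lam q 0 := by
    refine Summable.of_norm_bounded hc fun q => ?_
    rw [norm_mul, norm_mul, norm_chr, mul_one]
    exact mul_le_of_le_one_right (norm_nonneg _) (hw1 q)
  have h1 : ∑' q, c q * w q * chr H lam q 0 = c 0 * w 0 * chr H lam 0 0 +
      ∑' q, if q = 0 then 0 else c q * w q * chr H lam q 0 := hsumm.tsum_eq_add_tsum_ite 0
  have h2 : ‖∑' q, if q = 0 then 0 else c q * w q * chr H lam q 0‖ < 1 := by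
    have hs1 : Summable fun q => if q ∈ T then 0 else ‖c q‖ := by
      refine Summable.of_nonneg_of_le (fun q => ?_) (fun q => ?_) hc
      · split_ifs <;> simp
      · split_ifs <;> simp
    have hs2 : ∑' q, (if q ∈ T then 0 else ‖c q‖) = ∑' q : {q // q ∉ T}, ‖c q‖ := by
      rw [← tsum_subtype_eq_of_support_subset (s := {q | q ∉ T})
        (f := fun q => if q ∈ T then 0 else ‖c q‖)]
      · refine tsum_congr fun q => ?_
        have hq : (q : R) ∉ T := q.2
        simp [hq]
      · intro q hq
        rw [Function.mem_support] at hq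
        intro h
        exact hq (if_pos h)
    refine lt_of_le_of_lt ?_ (hs2 ▸ hT)
    refine tsum_of_norm_bounded hs1.hasSum fun q => ?_
    by_cases hq : q = 0
    · rw [if_pos hq, norm_zero]
      split_ifs <;> simp
    · rw [if_neg hq]
      by_cases hqT : q ∈ T
      · rw [hw3 q (Finset.mem_erase.2 ⟨hq, hqT⟩)]
        simp [hqT]
      · rw [if_neg hqT, norm_mul, norm_mul, norm_chr, mul_one]
        exact mul_le_of_le_one_right (norm_nonneg _) (hw1 q)
  rw [h1, hw2, chr_zero_left, mul_one, mul_one] at h0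
  have h3 : ‖c 0‖ = ‖∑' q, if q = 0 then 0 else c q * w q * chr H lam q 0‖ := by
    rw [eq_neg_of_add_eq_zero_left h0, norm_neg]
  rw [← h3, hc0] at h2
  exact lt_irrefl _ h2

end

section

variable {V : Type*} [NormedAddCommGroup V] [NormedSpace ℂ V] [FiniteDimensional ℂ V]

variable {R : Type*} [AddCommGroup R] {H : V →ₗ[ℂ] V →ₛₗ[starRingEnd ℂ] ℂ} {lam : R →+ V}
  {ε : R → ℂ}

theorem theta_ne_zero (hherm : ∀ v w, H w v = starRingEnd ℂ (H v w))
    (hpos : ∀ v, 0 ≤ (H v v).re) (hε : ∀ q, ‖ε q‖ = 1)
    (hsum : Summable fun q : R => Real.exp (-(H (lam q) (lam q)).re))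
    (hne : ∀ q : R, q ≠ 0 → ∃ v, (H v (lam q)).im ≠ 0) : ∃ b v, theta H lam ε b v ≠ 0 := by
  by_contra hcon
  push Not at hcon
  refine fourier_ne_zero (H := H) (lam := lam)
    (fun q => (ε q)⁻¹ * cexp (-(Real.pi / 2 * H (lam q) (lam q)))) ?_ ?_ hne fun v => ?_
  · refine Summable.of_nonneg_of_le (fun q => norm_nonneg _) (fun q => ?_) hsum
    rw [norm_mul, norm_inv, hε, inv_one, one_mul, norm_exp, Real.exp_le_exp]
    have h2 : ((Real.pi : ℂ) / 2) = ((Real.pi / 2 : ℝ) : ℂ) := by push_cast; ring
    rw [h2, neg_re, re_ofReal_mul]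
    have h3 : (3 : ℝ) < Real.pi := Real.pi_gt_three
    nlinarith [hpos (lam q)]
  · rw [norm_mul, norm_inv, hε]
    simp
  · have h1 := hcon v v
    rw [theta] at h1
    have h2 : ∀ q, term H lam ε v q v = cexp (Real.pi * H v v) *
        ((ε q)⁻¹ * cexp (-(Real.pi / 2 * H (lam q) (lam q))) * chr H lam q v) := by
      intro q
      have h4 : cexp (Real.pi * H v v) *
          ((ε q)⁻¹ * cexp (-(Real.pi / 2 * H (lam q) (lam q))) * chr H lam q v) =
          (ε q)⁻¹ * cexp (Real.pi * H v v + -(Real.pi / 2 * H (lam q) (lam q)) +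
            -(2 * Real.pi * I * (H v (lam q)).im)) := by
        rw [chr, exp_add, exp_add]
        ring
      rw [h4, term]
      congr 2
      have h3 : H v (lam q) - H (lam q) v = 2 * I * (H v (lam q)).im := by
        rw [hherm v (lam q), Complex.sub_conj]
        push_cast
        ring
      rw [map_add, LinearMap.add_apply]
      linear_combination (-(Real.pi : ℂ)) * h3
    rw [tsum_congr h2, tsum_mul_left] at h1
    exact (mul_eq_zero.1 h1).resolve_left (exp_ne_zero _)

end

end Pool.Agent.H77.TQ
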