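import Pool.Agent.H77.TQ.Gauss

/-!
# Existence of a nonzero theta function for a positive semidefinite form
-/

set_option autoImplicit false

namespace Pool.Agent.H77.TQ

open Complex

section

variable {V : Type*} [NormedAddCommGroup V] [NormedSpace ℂ V] [FiniteDimensional ℂ V]

/-- the seminorm of a form -/
noncomputable def nrm (H : V →ₗ[ℂ] V →ₛₗ[starRingEnd ℂ] ℂ) (v : V) : ℝ := Real.sqrt (H v v).re

theorem nrm_nonneg (H : V →ₗ[ℂ] V →ₛₗ[starRingEnd ℂ] ℂ) (v : V) : 0 ≤ nrm H v :=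
  Real.sqrt_nonneg _

theorem nrm_sq {H : V →ₗ[ℂ] V →ₛₗ[starRingEnd ℂ] ℂ} (hpos : ∀ v, 0 ≤ (H v v).re) (v : V) :
    nrm H v ^ 2 = (H v v).re := Real.sq_sqrt (hpos v)

theorem norm_form_le {H : V →ₗ[ℂ] V →ₛₗ[starRingEnd ℂ] ℂ}
    (hherm : ∀ v w, H w v = starRingEnd ℂ (H v w)) (hpos : ∀ v, 0 ≤ (H v v).re) (v w : V) :
    ‖H v w‖ ≤ nrm H v * nrm H w := by
  rw [nrm, nrm, ← Real.sqrt_mul (hpos v)]
  exact Real.le_sqrt_of_sq_le (cauchy_schwarz H hherm hpos v w)

theorem exists_bound {H : V →ₗ[ℂ] V →ₛₗ[starRingEnd ℂ] ℂ}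
    (hherm : ∀ v w, H w v = starRingEnd ℂ (H v w)) (hpos : ∀ v, 0 ≤ (H v v).re) :
    ∃ C : ℝ, 0 ≤ C ∧ ∀ v w, ‖H v w‖ ≤ C * ‖v‖ * nrm H w := by
  let e := Module.finBasis ℂ V
  refine ⟨∑ i, ‖LinearMap.toContinuousLinearMap (e.coord i)‖ * nrm H (e i),
    Finset.sum_nonneg fun i _ => mul_nonneg (norm_nonneg _) (nrm_nonneg _ _), fun v w => ?_⟩
  have h1 : H v w = ∑ i, e.coord i v * H (e i) w := by
    have h := congrArg (fun x => H x w) (e.sum_repr v)
    simp only [map_sum, map_smul, LinearMap.sum_apply, LinearMap.smul_apply, smul_eq_mul] at h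
    exact h.symm
  rw [h1, Finset.sum_mul, Finset.sum_mul]
  refine (norm_sum_le _ _).trans (Finset.sum_le_sum fun i _ => ?_)
  rw [norm_mul]
  have h2 : ‖e.coord i v‖ ≤ ‖LinearMap.toContinuousLinearMap (e.coord i)‖ * ‖v‖ :=
    (LinearMap.toContinuousLinearMap (e.coord i)).le_opNorm v
  calc ‖e.coord i v‖ * ‖H (e i) w‖
      ≤ (‖LinearMap.toContinuousLinearMap (e.coord i)‖ * ‖v‖) * (nrm H (e i) * nrm H w) :=
        mul_le_mul h2 (norm_form_le hherm hpos _ _) (norm_nonneg _)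
          (mul_nonneg (norm_nonneg _) (norm_nonneg _))
    _ = _ := by ring

/-- The term of the theta series. -/
noncomputable def term {R : Type*} [AddCommGroup R] (H : V →ₗ[ℂ] V →ₛₗ[starRingEnd ℂ] ℂ)
    (lam : R →+ V) (ε : R → ℂ) (b : V) (q : R) (v : V) : ℂ :=
  (ε q)⁻¹ * cexp (-(Real.pi * H v (lam q)) - Real.pi / 2 * H (lam q) (lam q) +
    Real.pi * H (v + lam q) b)

variable {R : Type*} [AddCommGroup R] {H : V →ₗ[ℂ] V →ₛₗ[starRingEnd ℂ] ℂ} {lam : R →+ V}
  {ε : R → ℂ}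

/-- the linear form in the exponent of a term -/
noncomputable def dterm (H : V →ₗ[ℂ] V →ₛₗ[starRingEnd ℂ] ℂ) (lam : R →+ V) (b : V) (q : R) :
    V →L[ℂ] ℂ :=
  LinearMap.toContinuousLinearMap
    (-((Real.pi : ℂ) • H.flip (lam q)) + (Real.pi : ℂ) • H.flip b)

theorem dterm_apply (b : V) (q : R) (v : V) :
    dterm H lam b q v = -(Real.pi * H v (lam q)) + Real.pi * H v b := by
  simp [dterm]

theorem hasFDerivAt_term (b : V) (q : R) (v : V) :
    HasFDerivAt (term H lam ε b q) (term H lam ε b q v • dterm H lam b q) v := by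
  have h1 : ∀ w, term H lam ε b q w = (ε q)⁻¹ * cexp (dterm H lam b q w +
      (- Real.pi / 2 * H (lam q) (lam q) + Real.pi * H (lam q) b)) := by
    intro w
    rw [term, dterm_apply]
    congr 2
    rw [map_add, LinearMap.add_apply]
    ring
  have h2 : HasFDerivAt (fun w => dterm H lam b q w +
      (- Real.pi / 2 * H (lam q) (lam q) + Real.pi * H (lam q) b)) (dterm H lam b q) v :=
    (dterm H lam b q).hasFDerivAt.add_const _
  have h3 := (h2.cexp).const_mul ((ε q)⁻¹)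
  have h4 : term H lam ε b q = fun w => (ε q)⁻¹ * cexp (dterm H lam b q w +
      (- Real.pi / 2 * H (lam q) (lam q) + Real.pi * H (lam q) b)) := funext h1
  rw [h4]
  refine h3.congr_fderiv ?_
  rw [smul_smul]

theorem norm_dterm_le {C : ℝ} (hC : 0 ≤ C) (hCb : ∀ v w, ‖H v w‖ ≤ C * ‖v‖ * nrm H w)
    (b : V) (q : R) : ‖dterm H lam b q‖ ≤ Real.pi * C * (nrm H (lam q) + nrm H b) := by
  refine ContinuousLinearMap.opNorm_le_bound _ (mul_nonneg (mul_nonneg Real.pi_pos.le hC)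
    (add_nonneg (nrm_nonneg _ _) (nrm_nonneg _ _))) fun v => ?_
  rw [dterm_apply]
  have h1 : ‖-(Real.pi * H v (lam q)) + Real.pi * H v b‖ ≤
      Real.pi * ‖H v (lam q)‖ + Real.pi * ‖H v b‖ := by
    refine (norm_add_le _ _).trans ?_
    rw [norm_neg, norm_mul, norm_mul, norm_real, Real.norm_of_nonneg Real.pi_pos.le]
  refine h1.trans ?_
  have h2 := mul_le_mul_of_nonneg_left (hCb v (lam q)) Real.pi_pos.le
  have h3 := mul_le_mul_of_nonneg_left (hCb v b) Real.pi_pos.le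
  calc _ ≤ _ := add_le_add h2 h3
    _ = _ := by ring

theorem norm_term_le (hherm : ∀ v w, H w v = starRingEnd ℂ (H v w))
    (hpos : ∀ v, 0 ≤ (H v v).re) (hε : ∀ q, ‖ε q‖ = 1)
    {C : ℝ} (hC : 0 ≤ C) (hCb : ∀ v w, ‖H v w‖ ≤ C * ‖v‖ * nrm H w) (b : V) (q : R) {v : V}
    {r : ℝ} (hv : ‖v‖ ≤ r) :
    ‖term H lam ε b q v‖ ≤ Real.exp (Real.pi * C * r * nrm H b +
      (Real.pi * C * r + Real.pi * nrm H b) * nrm H (lam q) -
      Real.pi / 2 * nrm H (lam q) ^ 2) := by
  have hpi := Real.pi_pos.le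
  rw [term, norm_mul, norm_inv, hε, inv_one, one_mul, norm_exp, Real.exp_le_exp, nrm_sq hpos]
  have e1 : (-(Real.pi * H v (lam q)) - Real.pi / 2 * H (lam q) (lam q) +
      Real.pi * H (v + lam q) b : ℂ).re = -(Real.pi * (H v (lam q)).re) -
      Real.pi / 2 * (H (lam q) (lam q)).re + Real.pi * ((H v b).re + (H (lam q) b).re) := by
    have h2 : ((Real.pi : ℂ) / 2) = ((Real.pi / 2 : ℝ) : ℂ) := by push_cast; ring
    rw [map_add, LinearMap.add_apply, h2, add_re, sub_re, neg_re, re_ofReal_mul, re_ofReal_mul,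
      re_ofReal_mul, add_re]
  rw [e1]
  have hq := nrm_nonneg H (lam q)
  have hb := nrm_nonneg H b
  have h1 : -(H v (lam q)).re ≤ C * r * nrm H (lam q) := by
    refine (neg_le_abs _).trans ((abs_re_le_norm _).trans ((hCb _ _).trans ?_))
    exact mul_le_mul_of_nonneg_right (mul_le_mul_of_nonneg_left hv hC) hq
  have h2 : (H v b).re ≤ C * r * nrm H b := by
    refine (re_le_norm _).trans ((hCb _ _).trans ?_)
    exact mul_le_mul_of_nonneg_right (mul_le_mul_of_nonneg_left hv hC) hb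
  have h3 : (H (lam q) b).re ≤ nrm H (lam q) * nrm H b :=
    (re_le_norm _).trans (norm_form_le hherm hpos _ _)
  nlinarith [mul_le_mul_of_nonneg_left h1 hpi, mul_le_mul_of_nonneg_left h2 hpi,
    mul_le_mul_of_nonneg_left h3 hpi]

theorem norm_term_le' (hherm : ∀ v w, H w v = starRingEnd ℂ (H v w))
    (hpos : ∀ v, 0 ≤ (H v v).re) (hε : ∀ q, ‖ε q‖ = 1)
    {C : ℝ} (hC : 0 ≤ C) (hCb : ∀ v w, ‖H v w‖ ≤ C * ‖v‖ * nrm H w) (b : V) (r : ℝ) :
    ∃ D : ℝ, ∀ (q : R) (v : V), ‖v‖ ≤ r →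
      ‖term H lam ε b q v‖ ≤ D * Real.exp (-(H (lam q) (lam q)).re) ∧
      ‖term H lam ε b q v • dterm H lam b q‖ ≤ D * Real.exp (-(H (lam q) (lam q)).re) := by
  have hpi := Real.pi_pos.le
  set A : ℝ := Real.pi * C * r * nrm H b with hA
  set B : ℝ := Real.pi * C * r + Real.pi * nrm H b with hB
  have key : ∀ n : ℝ, 0 ≤ n → ∀ B' : ℝ, B' * n - Real.pi / 2 * n ^ 2 ≤ B' ^ 2 / 2 - n ^ 2 := by
    intro n hn B'
    have h3 : (3 : ℝ) < Real.pi := Real.pi_gt_three
    nlinarith [sq_nonneg (B' - n), sq_nonneg n, mul_nonneg (sub_nonneg.2 h3.le) (sq_nonneg n)]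
  refine ⟨max (Real.exp (A + B ^ 2 / 2))
    (Real.pi * C * Real.exp (A + nrm H b + (B + 1) ^ 2 / 2)), fun q v hv => ⟨?_, ?_⟩⟩
  · refine (norm_term_le hherm hpos hε hC hCb b q hv).trans ?_
    refine le_trans ?_ (mul_le_mul_of_nonneg_right (le_max_left _ _) (Real.exp_pos _).le)
    rw [← Real.exp_add, Real.exp_le_exp, ← nrm_sq hpos]
    have := key _ (nrm_nonneg H (lam q)) B
    linarith
  · rw [norm_smul]
    refine le_trans ?_ (mul_le_mul_of_nonneg_right (le_max_right _ _) (Real.exp_pos _).le)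
    have h1 := norm_term_le hherm hpos hε hC hCb b q hv (lam := lam)
    have h2 := norm_dterm_le hC hCb b q (lam := lam)
    have h3 : nrm H (lam q) + nrm H b ≤ Real.exp (nrm H (lam q) + nrm H b) := by
      have := Real.add_one_le_exp (nrm H (lam q) + nrm H b)
      linarith
    calc ‖term H lam ε b q v‖ * ‖dterm H lam b q‖
        ≤ Real.exp (A + B * nrm H (lam q) - Real.pi / 2 * nrm H (lam q) ^ 2) *
          (Real.pi * C * Real.exp (nrm H (lam q) + nrm H b)) := by
          refine mul_le_mul h1 (h2.trans ?_) (norm_nonneg _) (Real.exp_pos _).le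
          exact mul_le_mul_of_nonneg_left h3 (mul_nonneg hpi hC)
      _ = Real.pi * C * Real.exp (A + nrm H b + ((B + 1) * nrm H (lam q) -
            Real.pi / 2 * nrm H (lam q) ^ 2)) := by
          rw [mul_left_comm, ← Real.exp_add]
          congr 2
          ring
      _ ≤ Real.pi * C * (Real.exp (A + nrm H b + (B + 1) ^ 2 / 2) *
            Real.exp (-(H (lam q) (lam q)).re)) := by
          refine mul_le_mul_of_nonneg_left ?_ (mul_nonneg hpi hC)
          rw [← Real.exp_add, Real.exp_le_exp, ← nrm_sq hpos]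
          have := key _ (nrm_nonneg H (lam q)) (B + 1)
          linarith
      _ = _ := by ring

/-- The theta series. -/
noncomputable def theta (H : V →ₗ[ℂ] V →ₛₗ[starRingEnd ℂ] ℂ) (lam : R →+ V) (ε : R → ℂ) (b v : V) :
    ℂ := ∑' q, term H lam ε b q v

theorem summable_term (hherm : ∀ v w, H w v = starRingEnd ℂ (H v w))
    (hpos : ∀ v, 0 ≤ (H v v).re) (hε : ∀ q, ‖ε q‖ = 1)
    (hsum : Summable fun q : R => Real.exp (-(H (lam q) (lam q)).re)) (b v : V) :
    Summable fun q => term H lam ε b q v := by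
  obtain ⟨C, hC, hCb⟩ := exists_bound hherm hpos
  obtain ⟨D, hD⟩ := norm_term_le' (lam := lam) hherm hpos hε hC hCb b ‖v‖
  exact Summable.of_norm_bounded (hsum.mul_left D) fun q => (hD q v le_rfl).1

theorem differentiable_theta (hherm : ∀ v w, H w v = starRingEnd ℂ (H v w))
    (hpos : ∀ v, 0 ≤ (H v v).re) (hε : ∀ q, ‖ε q‖ = 1)
    (hsum : Summable fun q : R => Real.exp (-(H (lam q) (lam q)).re)) (b : V) :
    Differentiable ℂ (theta H lam ε b) := by
  intro v
  obtain ⟨C, hC, hCb⟩ := exists_bound hherm hpos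
  obtain ⟨D, hD⟩ := norm_term_le' (lam := lam) hherm hpos hε hC hCb b (‖v‖ + 1)
  have hball : ∀ w ∈ Metric.ball (0 : V) (‖v‖ + 1), ‖w‖ ≤ ‖v‖ + 1 := by
    intro w hw
    rw [mem_ball_zero_iff] at hw
    exact hw.le
  have hv : v ∈ Metric.ball (0 : V) (‖v‖ + 1) := by
    rw [mem_ball_zero_iff]
    linarith
  exact (hasFDerivAt_tsum_of_isPreconnected (hsum.mul_left D) Metric.isOpen_ball
    (convex_ball (0 : V) (‖v‖ + 1)).isPreconnected (fun q w _ => hasFDerivAt_term b q w)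
    (fun q w hw => (hD q w (hball w hw)).2) hv (summable_term hherm hpos hε hsum b v)
    hv).differentiableAt

/-- The functional equation of a term. -/
theorem term_add (hherm : ∀ v w, H w v = starRingEnd ℂ (H v w)) (hε : ∀ q, ‖ε q‖ = 1)
    (hmul : ∀ q p, ε (q + p) = ε q * ε p * cexp (-(Real.pi * I * (H (lam q) (lam p)).im)))
    (b v : V) (q p : R) :
    term H lam ε b q (v + lam p) = ε p * cexp (Real.pi * H v (lam p) +
      Real.pi / 2 * H (lam p) (lam p)) * term H lam ε b (q + p) v := by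
  have hq : ε q ≠ 0 := fun h => by simpa [h] using hε q
  have hp : ε p ≠ 0 := fun h => by simpa [h] using hε p
  have h1 : H (lam q) (lam p) = starRingEnd ℂ (H (lam p) (lam q)) := hherm _ _
  have h2 : (H (lam q) (lam p) - H (lam p) (lam q)) = 2 * I * (H (lam q) (lam p)).im := by
    rw [hherm (lam q) (lam p)]
    rw [Complex.sub_conj]
    push_cast
    ring
  rw [term, term, hmul]
  have h3 : (ε q * ε p * cexp (-(Real.pi * I * (H (lam q) (lam p)).im)))⁻¹ =
      (ε q)⁻¹ * (ε p)⁻¹ * cexp (Real.pi * I * (H (lam q) (lam p)).im) := by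
    rw [mul_inv, mul_inv, exp_neg, inv_inv]
  rw [h3]
  calc (ε q)⁻¹ * cexp (-(Real.pi * H (v + lam p) (lam q)) - Real.pi / 2 * H (lam q) (lam q) +
        Real.pi * H (v + lam p + lam q) b)
      = (ε q)⁻¹ * (cexp (Real.pi * H v (lam p) + Real.pi / 2 * H (lam p) (lam p)) *
          cexp (Real.pi * I * (H (lam q) (lam p)).im) *
          cexp (-(Real.pi * H v (lam (q + p))) - Real.pi / 2 * H (lam (q + p)) (lam (q + p)) +
            Real.pi * H (v + lam (q + p)) b)) := by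
        rw [← exp_add, ← exp_add]
        congr 2
        have e1 : v + lam p + lam q = v + lam (q + p) := by
          rw [map_add]
          abel
        rw [e1]
        simp only [map_add, LinearMap.add_apply]
        linear_combination (Real.pi / 2 : ℂ) * h2
    _ = _ := by
        field_simp

theorem theta_add (hherm : ∀ v w, H w v = starRingEnd ℂ (H v w)) (hε : ∀ q, ‖ε q‖ = 1)
    (hmul : ∀ q p, ε (q + p) = ε q * ε p * cexp (-(Real.pi * I * (H (lam q) (lam p)).im)))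
    (b v : V) (p : R) :
    theta H lam ε b (v + lam p) = ε p * cexp (Real.pi * H v (lam p) +
      Real.pi / 2 * H (lam p) (lam p)) * theta H lam ε b v := by
  rw [theta, theta, ← tsum_mul_left]
  rw [← (Equiv.addRight p).tsum_eq (fun q => ε p * cexp (Real.pi * H v (lam p) +
      Real.pi / 2 * H (lam p) (lam p)) * term H lam ε b q v)]
  exact tsum_congr fun q => term_add hherm hε hmul b v q p

end

end Pool.Agent.H77.TQ
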